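import Pool.Agent.H75.UZ.TarKO

/-! KO1: definable open sets of reals have codes. -/

open Ordinal Order Set
open scoped ZFSet

namespace SE.UZ

open SF CAA

theorem ko1_cons (z b : V) (v : ℕ → V) :
    (fun i => cons z (cons b v) (shr 1 i)) = cons z v := by
  funext i
  cases i with
  | zero => rfl
  | succ n => rfl

/-- KO1 -/
theorem pf_KO1 (hF : T_AF) (hG : T_AG) (hI : T_AI) (hB : T_KB) : T_KO1 := by
  intro R dR W k v hv h
  have tsq : Tm ZFm (fun _ _ => sq) := hF.2.2.1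
  have dS : Dfb ZFm (fun M u => ∀ z, M z → (Rl z → u 0 ⊆ z →
      R M (fun i => cons z u (shr 1 i)))) := by
    have d1 : Dfb ZFm (fun _ u => Rl (u 0)) := hI.1
    have d2 : Dfb ZFm (fun _ u => u 1 ⊆ u 0) := Dfb.subset (Tm.var 1) (Tm.var 0)
    have d3 : Dfb ZFm (fun M u => R M (fun i => u (shr 1 i))) := dR.rn (shr 1)
    exact (d1.imp (d2.imp d3)).all
  have tP := Tm.sep dS tsq
  have wP := tP.1 W k v hv
  obtain ⟨c, wc, rc, hc⟩ := hB.2 W k _ wP (fun b hb => (ZFSet.mem_sep.1 hb).1)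
  refine ⟨c, wc, rc, fun z wz rz => ?_⟩
  rw [hc z rz]
  constructor
  · rintro ⟨m, hm⟩
    have h1 := (ZFSet.mem_sep.1 hm).2 z wz rz ((hG.1 z rz).2.2.1 m).2.2.1
    rwa [ko1_cons] at h1
  · intro hR
    obtain ⟨n, hn⟩ := h z wz rz hR
    have s1 : Sq n (rs z (nS n)) := ((hG.1 z rz).2.2.1 n).2.1
    refine ⟨n, ZFSet.mem_sep.2 ⟨?_, ?_⟩⟩
    · exact (hF.1 _).2 ⟨n, s1⟩
    · intro z' wz' rz' hs
      rw [ko1_cons]
      have h2 := ((hG.2.1 z' n (rs z (nS n)) rz' s1).1 hs)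
      exact hn z' wz' rz' h2.symm

end SE.UZ
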